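import Mathlib

set_option autoImplicit false

namespace Pool.Agent.H59

open Matrix
open scoped commutatorElement

/-- Automorphism action built from an explicit function. -/
def mkAut {G N : Type*} [Group G] [Group N] (f : G → N → N) (h1 : ∀ n, f 1 n = n)
    (hm : ∀ g h n, f (g * h) n = f g (f h n)) (hmul : ∀ g a b, f g (a * b) = f g a * f g b) :
    G →* MulAut N where
  toFun g :=
    { toFun := f g
      invFun := f g⁻¹
      left_inv := fun n => by rw [← hm, inv_mul_cancel, h1]
      right_inv := fun n => by rw [← hm, mul_inv_cancel, h1]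
      map_mul' := hmul g }
  map_one' := by ext n; exact h1 n
  map_mul' g h := by ext n; exact hm g h n

@[simp] lemma mkAut_apply {G N : Type*} [Group G] [Group N] (f : G → N → N) (h1 : ∀ n, f 1 n = n)
    (hm : ∀ g h n, f (g * h) n = f g (f h n)) (hmul : ∀ g a b, f g (a * b) = f g a * f g b)
    (g : G) (n : N) : mkAut f h1 hm hmul g n = f g n := rfl

/-- Descending filtrations bound the derived series. -/
lemma derivedSeries_le_of_filtration {G : Type*} [Group G] (S : ℕ → Subgroup G) (a : ℕ)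
    (h0 : derivedSeries G a ≤ S 0)
    (hs : ∀ n, ∀ x ∈ S n, ∀ y ∈ S n, ⁅x, y⁆ ∈ S (n + 1)) (n : ℕ) :
    derivedSeries G (a + n) ≤ S n := by
  induction n with
  | zero => exact h0
  | succ n ih =>
    rw [← add_assoc, derivedSeries_succ]
    exact Subgroup.commutator_le.mpr fun x hx y hy => hs n x (ih hx) y (ih hy)

section congr

variable {R : Type*} [CommRing R]

/-- matrices with all entries in an ideal -/
def MI (I : Ideal R) : Set (Matrix (Fin 3) (Fin 3) R) := {x | ∀ i j, x i j ∈ I}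

lemma MI_mul {I J : Ideal R} {x y : Matrix (Fin 3) (Fin 3) R} (hx : x ∈ MI I) (hy : y ∈ MI J) :
    x * y ∈ MI (I * J) := by
  intro i j
  rw [Matrix.mul_apply]
  exact Ideal.sum_mem _ fun k _ => Ideal.mul_mem_mul (hx i k) (hy k j)

lemma MI_mul_right {I : Ideal R} {x : Matrix (Fin 3) (Fin 3) R} (hx : x ∈ MI I)
    (y : Matrix (Fin 3) (Fin 3) R) : x * y ∈ MI I := by
  intro i j
  rw [Matrix.mul_apply]
  exact Ideal.sum_mem _ fun k _ => Ideal.mul_mem_right _ _ (hx i k)

lemma MI_mul_left {I : Ideal R} {x : Matrix (Fin 3) (Fin 3) R} (hx : x ∈ MI I)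
    (y : Matrix (Fin 3) (Fin 3) R) : y * x ∈ MI I := by
  intro i j
  rw [Matrix.mul_apply]
  exact Ideal.sum_mem _ fun k _ => Ideal.mul_mem_left _ _ (hx k j)

lemma MI_add {I : Ideal R} {x y : Matrix (Fin 3) (Fin 3) R} (hx : x ∈ MI I) (hy : y ∈ MI I) :
    x + y ∈ MI I := fun i j => I.add_mem (hx i j) (hy i j)

lemma MI_sub {I : Ideal R} {x y : Matrix (Fin 3) (Fin 3) R} (hx : x ∈ MI I) (hy : y ∈ MI I) :
    x - y ∈ MI I := fun i j => I.sub_mem (hx i j) (hy i j)

/-- congruence subgroup of level I -/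
def Cong (I : Ideal R) : Subgroup (GL (Fin 3) R) where
  carrier := {g | (g : Matrix (Fin 3) (Fin 3) R) - 1 ∈ MI I}
  one_mem' := by intro i j; simp
  mul_mem' := by
    intro a b ha hb
    have : ((a * b : GL (Fin 3) R) : Matrix (Fin 3) (Fin 3) R) - 1
        = ((a : Matrix (Fin 3) (Fin 3) R) - 1) * b + ((b : Matrix (Fin 3) (Fin 3) R) - 1) := by
      rw [Units.val_mul]; noncomm_ring
    show _ ∈ MI I
    rw [this]
    exact MI_add (MI_mul_right ha _) hb
  inv_mem' := by
    intro a ha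
    have : ((a⁻¹ : GL (Fin 3) R) : Matrix (Fin 3) (Fin 3) R) - 1
        = (((0 : Matrix (Fin 3) (Fin 3) R)) - ((a : Matrix (Fin 3) (Fin 3) R) - 1) * (a⁻¹ : GL (Fin 3) R)) := by
      rw [sub_mul, Units.mul_inv]; simp
    show _ ∈ MI I
    rw [this]
    refine MI_sub (fun i j => by simp) (MI_mul_right ha _)

lemma mem_Cong {I : Ideal R} {g : GL (Fin 3) R} :
    g ∈ Cong I ↔ ∀ i j, ((g : Matrix (Fin 3) (Fin 3) R) - 1) i j ∈ I := Iff.rfl

lemma Cong_comm {I J : Ideal R} {g h : GL (Fin 3) R} (hg : g ∈ Cong I) (hh : h ∈ Cong J) :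
    ⁅g, h⁆ ∈ Cong (I * J) := by
  have key : ((⁅g, h⁆ : GL (Fin 3) R) : Matrix (Fin 3) (Fin 3) R) - 1
      = ((((g : Matrix (Fin 3) (Fin 3) R) - 1) * ((h : Matrix (Fin 3) (Fin 3) R) - 1)
        - ((h : Matrix (Fin 3) (Fin 3) R) - 1) * ((g : Matrix (Fin 3) (Fin 3) R) - 1))
          * ((g⁻¹ : GL (Fin 3) R) * (h⁻¹ : GL (Fin 3) R) : Matrix (Fin 3) (Fin 3) R)) := by
    have e : ((g : Matrix (Fin 3) (Fin 3) R) - 1) * ((h : Matrix (Fin 3) (Fin 3) R) - 1)
        - ((h : Matrix (Fin 3) (Fin 3) R) - 1) * ((g : Matrix (Fin 3) (Fin 3) R) - 1)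
        = ((g * h : GL (Fin 3) R) : Matrix (Fin 3) (Fin 3) R)
          - ((h * g : GL (Fin 3) R) : Matrix (Fin 3) (Fin 3) R) := by
      rw [Units.val_mul, Units.val_mul]; noncomm_ring
    rw [e, ← Units.val_mul, sub_mul, ← Units.val_mul, ← Units.val_mul, commutatorElement_def]
    have : (h * g * (g⁻¹ * h⁻¹) : GL (Fin 3) R) = 1 := by group
    rw [this, Units.val_one, mul_assoc (g * h)]
  show _ ∈ MI _
  rw [key]
  refine MI_mul_right (MI_sub (MI_mul hg hh) ?_) _
  rw [mul_comm I J]
  exact MI_mul hh hg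

lemma Cong_bot {g : GL (Fin 3) R} (hg : g ∈ Cong (⊥ : Ideal R)) : g = 1 := by
  ext i j
  have := hg i j
  rw [Ideal.mem_bot, Matrix.sub_apply, sub_eq_zero] at this
  simpa using this

lemma Cong_mono {I J : Ideal R} (h : I ≤ J) : Cong I ≤ Cong J := fun _ hg i j => h (hg i j)

/-- map of a ring hom on GL_3 preserves congruence -/
lemma Cong_map {S : Type*} [CommRing S] (f : R →+* S) {I : Ideal R} {J : Ideal S}
    (h : I ≤ J.comap f) {g : GL (Fin 3) R} (hg : g ∈ Cong I) :
    Matrix.GeneralLinearGroup.map f g ∈ Cong J := by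
  intro i j
  have := h (hg i j)
  rw [Ideal.mem_comap] at this
  have e : ((Matrix.GeneralLinearGroup.map f g : GL (Fin 3) S) : Matrix (Fin 3) (Fin 3) S) i j
    = f ((g : Matrix (Fin 3) (Fin 3) R) i j) := rfl
  rw [Matrix.sub_apply, e]
  rw [Matrix.sub_apply, map_sub] at this
  have e1 : f ((1 : Matrix (Fin 3) (Fin 3) R) i j) = (1 : Matrix (Fin 3) (Fin 3) S) i j := by
    rw [Matrix.one_apply, Matrix.one_apply]; split_ifs <;> simp
  rwa [e1] at this

/-- elementary matrices -/
def elem (a b : Fin 3) (h : a ≠ b) (x : R) : GL (Fin 3) R where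
  val := 1 + Matrix.single a b x
  inv := 1 - Matrix.single a b x
  val_inv := by
    have : Matrix.single a b x * Matrix.single a b x = 0 := by
      rw [Matrix.single_mul_single_of_ne]; exact h.symm
    noncomm_ring
    rw [this]; simp
  inv_val := by
    have : Matrix.single a b x * Matrix.single a b x = 0 := by
      rw [Matrix.single_mul_single_of_ne]; exact h.symm
    noncomm_ring
    rw [this]; simp

lemma elem_val (a b : Fin 3) (h : a ≠ b) (x : R) :
    (elem a b h x : Matrix (Fin 3) (Fin 3) R) = 1 + Matrix.single a b x := rfl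

lemma elem_mul (a b : Fin 3) (h : a ≠ b) (x y : R) :
    elem a b h x * elem a b h y = elem a b h (x + y) := by
  apply Units.ext
  rw [Units.val_mul, elem_val, elem_val, elem_val, Matrix.single_add]
  have : Matrix.single a b x * Matrix.single a b y = 0 := by
      rw [Matrix.single_mul_single_of_ne]; exact h.symm
  noncomm_ring
  rw [this]; simp

lemma elem_zero (a b : Fin 3) (h : a ≠ b) : elem a b h (0 : R) = 1 := by
  apply Units.ext; rw [elem_val]; simp

lemma elem_inv (a b : Fin 3) (h : a ≠ b) (x : R) : (elem a b h x)⁻¹ = elem a b h (-x) := by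
  rw [inv_eq_iff_mul_eq_one, elem_mul, add_neg_cancel, elem_zero]

lemma elem_comm (a b c : Fin 3) (hac : a ≠ c) (hcb : c ≠ b) (hab : a ≠ b) (x y : R) :
    ⁅elem a c hac x, elem c b hcb y⁆ = elem a b hab (x * y) := by
  rw [commutatorElement_def, elem_inv, elem_inv]
  apply Units.ext
  simp only [Units.val_mul, elem_val]
  ext i j
  fin_cases a <;> fin_cases b <;> fin_cases c <;> simp at hac hcb hab <;>
  fin_cases i <;> fin_cases j <;>
  simp [Matrix.mul_apply, Fin.sum_univ_three, Matrix.single]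

lemma elem_mem_Cong {a b : Fin 3} {h : a ≠ b} {x : R} {I : Ideal R} (hx : x ∈ I) :
    elem a b h x ∈ Cong I := by
  intro i j
  rw [elem_val, add_sub_cancel_left]
  rw [Matrix.single_apply]
  split_ifs
  · exact hx
  · exact I.zero_mem

lemma elem_eq_one {a b : Fin 3} {h : a ≠ b} {x : R} (hx : elem a b h x = 1) : x = 0 := by
  have := congrArg (fun g : GL (Fin 3) R => (g : Matrix (Fin 3) (Fin 3) R) a b) hx
  simpa [elem_val, Matrix.one_apply, h] using this

lemma map_elem {S : Type*} [CommRing S] (f : R →+* S) (a b : Fin 3) (h : a ≠ b) (x : R) :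
    Matrix.GeneralLinearGroup.map f (elem a b h x) = elem a b h (f x) := by
  apply Units.ext
  ext i j
  have e : ((Matrix.GeneralLinearGroup.map f (elem a b h x) : GL (Fin 3) S) : Matrix (Fin 3) (Fin 3) S) i j
    = f ((elem a b h x : Matrix (Fin 3) (Fin 3) R) i j) := rfl
  rw [e, elem_val, elem_val, Matrix.add_apply, Matrix.add_apply, map_add]
  congr 1
  · rw [Matrix.one_apply, Matrix.one_apply]; split_ifs <;> simp
  · rw [Matrix.single_apply, Matrix.single_apply]; split_ifs <;> simp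

end congr

end Pool.Agent.H59
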