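import Mathlib

set_option autoImplicit false

namespace Pool.Agent.H59

/-- group algebra over F_3 -/
abbrev GA (E : Type*) [AddCommGroup E] := AddMonoidAlgebra (ZMod 3) E

variable {E E' : Type*} [AddCommGroup E] [AddCommGroup E']

/-- group element in the group algebra -/
noncomputable def gX (e : E) : GA E := AddMonoidAlgebra.single e 1

lemma gX_add (a b : E) : gX (a + b) = gX a * gX b := by
  unfold gX; rw [AddMonoidAlgebra.single_mul_single, one_mul]

lemma gX_zero : gX (0 : E) = 1 := rfl

/-- functoriality -/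
noncomputable def gmap (f : E →+ E') : GA E →+* GA E' := AddMonoidAlgebra.mapDomainRingHom (ZMod 3) f

lemma gmap_single (f : E →+ E') (e : E) (r : ZMod 3) :
    gmap f (AddMonoidAlgebra.single e r) = AddMonoidAlgebra.single (f e) r := by
  simp [gmap]

lemma gmap_gX (f : E →+ E') (e : E) : gmap f (gX e) = gX (f e) := gmap_single f e 1

lemma three_eq_zero : (3 : GA E) = 0 := by
  have : (3 : GA E) = AddMonoidAlgebra.single 0 (3 : ZMod 3) := AddMonoidAlgebra.ofNat_def 3
  rw [this]
  have h3 : (3 : ZMod 3) = 0 := by decide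
  rw [h3]; simp

lemma gX_sub_one_cube {e : E} (he : (3 : ℕ) • e = 0) : (gX e - 1) ^ 3 = 0 := by
  have h : gX e ^ 3 = 1 := by
    have : gX ((3 : ℕ) • e) = gX e ^ 3 := by
      rw [succ_nsmul, succ_nsmul, one_nsmul, gX_add, gX_add]; ring
    rw [← this, he, gX_zero]
  linear_combination h + (-(gX e)^2 + gX e) * three_eq_zero (E := E)

/-- the ideal of a family is nilpotent -/
lemma sup_span_pow {R : Type*} [CommRing R] {ι : Type*} (s : Finset ι) (a : ι → R)
    (ha : ∀ i, a i ^ 3 = 0) :
    (s.sup fun i => Ideal.span {a i}) ^ (3 * s.card + 1) = ⊥ := by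
  classical
  induction s using Finset.induction_on with
  | empty => simp
  | insert i s hi ih =>
    rw [Finset.sup_insert, Finset.card_insert_of_notMem hi, sup_comm]
    have e : 3 * (s.card + 1) + 1 = (3 * s.card + 1) + 3 := by ring
    rw [e, eq_bot_iff]
    refine (Ideal.sup_pow_add_le_pow_sup_pow).trans ?_
    rw [ih, Ideal.span_singleton_pow, ha]
    simp

lemma ker_gmap_le (f : E →+ E') (J : Ideal (GA E)) (hJ : ∀ k, f k = 0 → gX k - 1 ∈ J) :
    RingHom.ker (gmap f) ≤ J := by
  classical
  set σ : E' → E := Function.invFun f with hσ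
  have hfs : ∀ e, f (σ (f e)) = f e := fun e => Function.invFun_eq ⟨e, rfl⟩
  have key : ∀ a : GA E, a - AddMonoidAlgebra.mapDomain σ (gmap f a) ∈ J := by
    intro a
    induction a using AddMonoidAlgebra.induction_linear with
    | zero => simp
    | add x y hx hy =>
      rw [map_add, AddMonoidAlgebra.mapDomain_add]
      have := J.add_mem hx hy
      convert this using 1
      abel
    | single e r =>
      rw [gmap_single, AddMonoidAlgebra.mapDomain_single]
      have h1 : AddMonoidAlgebra.single e r - AddMonoidAlgebra.single (σ (f e)) r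
          = AddMonoidAlgebra.single (σ (f e)) r * (gX (e - σ (f e)) - 1) := by
        rw [mul_sub, mul_one, gX, AddMonoidAlgebra.single_mul_single, mul_one]
        congr 2
        abel
      rw [h1]
      apply Ideal.mul_mem_left
      apply hJ
      rw [map_sub, hfs, sub_self]
  intro a ha
  have h := key a
  rw [RingHom.mem_ker] at ha
  rw [ha, AddMonoidAlgebra.mapDomain_zero, sub_zero] at h
  exact h

lemma gX_sub_one_mem_of_closure (J : Ideal (GA E)) {s : Set E} (hs : ∀ e ∈ s, gX e - 1 ∈ J)
    {k : E} (hk : k ∈ AddSubgroup.closure s) : gX k - 1 ∈ J := by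
  induction hk using AddSubgroup.closure_induction with
  | mem x hx => exact hs x hx
  | zero => rw [gX_zero, sub_self]; exact J.zero_mem
  | add x y _ _ hx hy =>
    have : gX (x + y) - 1 = gX x * (gX y - 1) + (gX x - 1) := by rw [gX_add]; ring
    rw [this]
    exact J.add_mem (J.mul_mem_left _ hy) hx
  | neg x _ hx =>
    have h1 : gX (-x) * gX x = 1 := by rw [← gX_add, neg_add_cancel, gX_zero]
    have : gX (-x) - 1 = - (gX (-x) * (gX x - 1)) := by rw [mul_sub, h1]; ring
    rw [this]
    exact J.neg_mem (J.mul_mem_left _ hx)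

lemma ker_gmap_pow (f : E →+ E') {w : ℕ} (e : Fin w → E) (h3 : ∀ i, (3 : ℕ) • e i = 0)
    (hker : ∀ k, f k = 0 → k ∈ AddSubgroup.closure (Set.range e)) :
    RingHom.ker (gmap f) ^ (3 * w + 1) = ⊥ := by
  have h := sup_span_pow (Finset.univ : Finset (Fin w)) (fun i => gX (e i) - 1)
    (fun i => gX_sub_one_cube (h3 i))
  rw [Finset.card_fin] at h
  rw [eq_bot_iff, ← h]
  apply Ideal.pow_right_mono
  apply ker_gmap_le
  intro k hk
  apply gX_sub_one_mem_of_closure _ _ (hker k hk)
  rintro _ ⟨i, rfl⟩
  have : Ideal.span {gX (e i) - 1} ≤ (Finset.univ : Finset (Fin w)).sup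
      fun i => Ideal.span {gX (e i) - 1} := Finset.le_sup (f := fun i => Ideal.span {gX (e i) - 1})
        (Finset.mem_univ i)
  exact this (Ideal.mem_span_singleton_self _)

/-- non-vanishing of the product over a basis -/
lemma prod_one_sub_ne_zero {s : ℕ} [Module (ZMod 3) E] (b : Fin s → E)
    (hb : LinearIndependent (ZMod 3) b) : ∏ i, (1 - gX (b i)) ≠ 0 := by
  classical
  intro h0
  have hexp : ∏ i, (1 - gX (b i))
      = ∑ t ∈ (Finset.univ : Finset (Fin s)).powerset,
          AddMonoidAlgebra.single (∑ i ∈ t, b i) ((-1 : ZMod 3) ^ t.card) := by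
    have : ∀ i, (1 - gX (b i)) = (- gX (b i)) + 1 := fun i => by ring
    simp_rw [this]
    rw [Finset.prod_add]
    apply Finset.sum_congr rfl
    intro t _
    rw [Finset.prod_const_one, mul_one]
    have : ∀ i, - gX (b i) = AddMonoidAlgebra.single (b i) (-1) := by
      intro i; rw [gX, AddMonoidAlgebra.single_neg]
    simp_rw [this]
    rw [AddMonoidAlgebra.prod_single]
    simp
  rw [hexp] at h0
  have hc := congrArg (fun x : GA E => x.coeff (∑ i, b i)) h0
  simp only [AddMonoidAlgebra.coeff_sum, AddMonoidAlgebra.coeff_single, AddMonoidAlgebra.coeff_zero,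
    Finsupp.coe_finsetSum, Finset.sum_apply, Finsupp.coe_zero, Pi.zero_apply] at hc
  rw [Finset.sum_eq_single (Finset.univ : Finset (Fin s))] at hc
  · rw [Finsupp.single_eq_same] at hc
    exact (pow_ne_zero _ (by decide)) hc
  · intro t _ ht
    rw [Finsupp.single_apply, if_neg]
    intro hEq
    apply ht
    rw [Finset.eq_univ_iff_forall]
    intro i
    by_contra hi
    have h1 : ∑ j, (if j ∈ t then (1 : ZMod 3) else 0) • b j = ∑ j, (1 : ZMod 3) • b j := by
      simp only [ite_smul, one_smul, zero_smul]
      rw [Finset.sum_ite_mem, Finset.univ_inter]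
      exact hEq
    have h2 := Fintype.linearIndependent_iff.mp hb
      (fun j => (1 : ZMod 3) - (if j ∈ t then (1 : ZMod 3) else 0)) (by
        simp_rw [sub_smul]
        rw [Finset.sum_sub_distrib, h1, sub_self]) i
    simp [hi] at h2
  · intro h; exact absurd (by simp) h

end Pool.Agent.H59
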