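import Mathlib
import Pool.Agent.H59.P1

set_option autoImplicit false

namespace Pool.Agent.H59

open scoped commutatorElement

/-- permutation action on triples -/
def wrAct (D : Type) [Group D] : Equiv.Perm (Fin 3) →* MulAut (Fin 3 → D) :=
  mkAut (fun σ f i => f (σ⁻¹ i)) (fun f => rfl) (fun g h f => by ext i; simp [mul_inv_rev])
    (fun g a b => rfl)

@[simp] lemma wrAct_apply (D : Type) [Group D] (σ : Equiv.Perm (Fin 3)) (f : Fin 3 → D) (i : Fin 3) :
    wrAct D σ f i = f (σ⁻¹ i) := rfl

/-- the wreath product with S_3 -/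
abbrev Wr (D : Type) [Group D] := (Fin 3 → D) ⋊[wrAct D] Equiv.Perm (Fin 3)

lemma solvable_perm3 : Group.IsSolvable (Equiv.Perm (Fin 3)) := by
  have h1 : Group.IsSolvable (alternatingGroup (Fin 3)) := by
    apply Group.isSolvable_of_comm
    decide
  exact Group.isSolvable_of_ker_le_range (alternatingGroup (Fin 3)).subtype
    (Equiv.Perm.sign (α := Fin 3)) (by
      rw [Subgroup.range_subtype]; exact le_of_eq rfl)

lemma solvable_pi3 (D : Type) [Group D] [h : Group.IsSolvable D] : Group.IsSolvable (Fin 3 → D) := by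
  obtain ⟨n, hn⟩ := h.solvable
  refine ⟨⟨n, ?_⟩⟩
  rw [eq_bot_iff]
  intro x hx
  rw [Subgroup.mem_bot]
  ext i
  have := map_derivedSeries_le_derivedSeries (Pi.evalMonoidHom (fun _ : Fin 3 => D) i) n
    (Subgroup.mem_map_of_mem _ hx)
  rw [hn, Subgroup.mem_bot] at this
  simpa using this

lemma solvable_wr (D : Type) [Group D] [Group.IsSolvable D] : Group.IsSolvable (Wr D) := by
  have h1 := solvable_pi3 D
  have h2 := solvable_perm3
  exact Group.isSolvable_of_ker_le_range (SemidirectProduct.inl (φ := wrAct D))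
    (SemidirectProduct.rightHom) (by rw [SemidirectProduct.range_inl_eq_ker_rightHom])

lemma finite_sdp {N G : Type*} [Group N] [Group G] (φ : G →* MulAut N) [Finite N] [Finite G] :
    Finite (N ⋊[φ] G) :=
  Finite.of_equiv _ (SemidirectProduct.equivProd (φ := φ)).symm

lemma inl_comm_inr {N G : Type*} [Group N] [Group G] (φ : G →* MulAut N) (n : N) (g : G) :
    ⁅(SemidirectProduct.inl n : N ⋊[φ] G), (SemidirectProduct.inr g : N ⋊[φ] G)⁆
      = SemidirectProduct.inl (n * (φ g n)⁻¹) := by
  rw [commutatorElement_def, map_mul, map_inv, SemidirectProduct.inl_aut]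
  simp only [map_inv, mul_inv_rev, inv_inv, mul_assoc]

lemma wr_base (D : Type) [Group D] (a : D) :
    ∃ f : Fin 3 → D, (SemidirectProduct.inl f : Wr D) ∈ derivedSeries (Wr D) 2 ∧ f 0 = a := by
  -- the first commutator
  set t : Equiv.Perm (Fin 3) := Equiv.swap 0 1 with ht
  set c : Equiv.Perm (Fin 3) := Equiv.swap 0 1 * Equiv.swap 1 2 with hc
  have h0 : ∀ x : Wr D, x ∈ derivedSeries (Wr D) 0 := fun x => Subgroup.mem_top x
  have h1 : (SemidirectProduct.inl (![a, 1, 1] * (wrAct D t ![a, 1, 1])⁻¹) : Wr D)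
      ∈ derivedSeries (Wr D) 1 := by
    rw [← inl_comm_inr]
    exact Subgroup.commutator_mem_commutator (h0 _) (h0 _)
  have h1c : (SemidirectProduct.inr c : Wr D) ∈ derivedSeries (Wr D) 1 := by
    have : ∃ x y : Equiv.Perm (Fin 3), c = ⁅x, y⁆ := by
      rw [hc]; decide
    obtain ⟨x, y, hxy⟩ := this
    rw [hxy, map_commutatorElement]
    exact Subgroup.commutator_mem_commutator (h0 _) (h0 _)
  have e1 : (![a, 1, 1] * (wrAct D t ![a, 1, 1])⁻¹ : Fin 3 → D) = ![a, a⁻¹, 1] := by
    ext i
    fin_cases i <;> simp [ht, Equiv.swap_apply_def]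
  rw [e1] at h1
  refine ⟨![a, a⁻¹, 1] * (wrAct D c ![a, a⁻¹, 1])⁻¹, ?_, ?_⟩
  · rw [← inl_comm_inr]
    exact Subgroup.commutator_mem_commutator h1 h1c
  · have : c⁻¹ 0 = 2 := by rw [hc]; decide
    simp [this]

lemma wr_derived (D : Type) [Group D] (n : ℕ) :
    derivedSeries D n ≤ Subgroup.map (Pi.evalMonoidHom (fun _ : Fin 3 => D) 0)
      (Subgroup.comap (SemidirectProduct.inl (φ := wrAct D)) (derivedSeries (Wr D) (2 + n))) := by
  induction n with
  | zero =>
    intro a _
    obtain ⟨f, hf, h0⟩ := wr_base D a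
    exact ⟨f, hf, h0⟩
  | succ n ih =>
    rw [derivedSeries_succ]
    refine Subgroup.commutator_le.mpr fun x hx y hy => ?_
    obtain ⟨f, hf, rfl⟩ := ih hx
    obtain ⟨g, hg, rfl⟩ := ih hy
    refine ⟨⁅f, g⁆, ?_, ?_⟩
    · show (SemidirectProduct.inl ⁅f, g⁆ : Wr D) ∈ derivedSeries (Wr D) (2 + (n + 1))
      rw [map_commutatorElement, ← add_assoc]
      exact Subgroup.commutator_mem_commutator hf hg
    · rw [map_commutatorElement]

lemma wr_derived_ne_bot (D : Type) [Group D] (n : ℕ) (h : derivedSeries D n ≠ ⊥) :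
    derivedSeries (Wr D) (n + 2) ≠ ⊥ := by
  intro hb
  apply h
  rw [eq_bot_iff]
  refine (wr_derived D n).trans ?_
  rw [add_comm 2 n, hb]
  intro x hx
  obtain ⟨f, hf, rfl⟩ := hx
  have hf' : (SemidirectProduct.inl f : Wr D) ∈ (⊥ : Subgroup (Wr D)) := hf
  rw [Subgroup.mem_bot, ← map_one (SemidirectProduct.inl (φ := wrAct D)),
    SemidirectProduct.inl_inj] at hf'
  rw [hf', map_one]
  exact Subgroup.one_mem _

section rep

variable {D W : Type} [Group D] [AddCommGroup W] [Module (ZMod 3) W]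

/-- wreath action on triples -/
def wrRep (ρ : D →* Module.End (ZMod 3) W) : Wr D →* Module.End (ZMod 3) (Fin 3 → W) where
  toFun x := LinearMap.pi (fun i => ρ (x.left i) ∘ₗ LinearMap.proj (x.right⁻¹ i))
  map_one' := by
    ext w i
    simp [LinearMap.pi_apply]
  map_mul' x y := by
    apply LinearMap.ext
    intro w
    ext i
    simp [LinearMap.pi_apply, mul_inv_rev]

lemma wrRep_apply (ρ : D →* Module.End (ZMod 3) W) (x : Wr D) (w : Fin 3 → W) (i : Fin 3) :
    wrRep ρ x w i = ρ (x.left i) (w (x.right⁻¹ i)) := rfl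

lemma wrRep_inl_apply (ρ : D →* Module.End (ZMod 3) W) (f : Fin 3 → D) (w : Fin 3 → W) (i : Fin 3) :
    wrRep ρ (SemidirectProduct.inl f) w i = ρ (f i) (w i) := rfl

lemma wrRep_inr_apply (ρ : D →* Module.End (ZMod 3) W) (σ : Equiv.Perm (Fin 3)) (w : Fin 3 → W)
    (i : Fin 3) : wrRep ρ (SemidirectProduct.inr σ) w i = w (σ⁻¹ i) := by
  rw [wrRep_apply]; simp

lemma wr_faithful (ρ : D →* Module.End (ZMod 3) W) (hρ : ∀ d, ρ d = 1 → d = 1) (u : W) (hu : u ≠ 0)
    (x : Wr D) (hx : wrRep ρ x = 1) : x = 1 := by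
  have h : ∀ (w : Fin 3 → W) (i : Fin 3), ρ (x.left i) (w (x.right⁻¹ i)) = w i := by
    intro w i
    rw [← wrRep_apply, hx]; rfl
  have hinj : ∀ d : D, Function.Injective (ρ d) := by
    intro d a b hab
    have : ρ d⁻¹ (ρ d a) = ρ d⁻¹ (ρ d b) := by rw [hab]
    rw [← Module.End.mul_apply, ← Module.End.mul_apply, ← map_mul, inv_mul_cancel, map_one] at this
    simpa using this
  have hr : x.right = 1 := by
    by_contra hne
    have : ∃ i, x.right⁻¹ i ≠ i := by
      by_contra hcon
      push Not at hcon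
      apply hne
      rw [← inv_eq_one]
      ext i
      rw [hcon i]; rfl
    obtain ⟨i, hi⟩ := this
    have := h (Pi.single (x.right⁻¹ i) u) i
    rw [Pi.single_eq_same, Pi.single_eq_of_ne hi.symm] at this
    exact hu (hinj _ (by rw [this, map_zero]))
  have hl : x.left = 1 := by
    ext i
    apply hρ
    ext a
    have := h (Pi.single i a) i
    rw [hr, inv_one, Equiv.Perm.one_apply, Pi.single_eq_same] at this
    exact this
  exact SemidirectProduct.ext hl hr

variable {K : Type} [Field K] [Algebra (ZMod 3) K]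

lemma wr_nofix (ρ : D →* Module.End (ZMod 3) W)
    (hnf : ∀ v : W →ₗ[ZMod 3] K, (∀ d, v ∘ₗ ρ d = v) → v = 0)
    (v : (Fin 3 → W) →ₗ[ZMod 3] K) (hv : ∀ x, v ∘ₗ wrRep ρ x = v) : v = 0 := by
  have h : ∀ i, v ∘ₗ LinearMap.single (ZMod 3) (fun _ : Fin 3 => W) i = 0 := by
    intro i
    apply hnf
    intro d
    ext w
    have := congrArg (fun l => l (Pi.single i w)) (hv (SemidirectProduct.inl (fun _ => d)))
    simp only [LinearMap.comp_apply] at this ⊢
    rw [LinearMap.single_apply, LinearMap.single_apply, ← this]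
    congr 1
    ext j
    rw [wrRep_inl_apply]
    by_cases hj : j = i
    · subst hj; simp
    · simp [Pi.single_eq_of_ne hj]
  apply LinearMap.pi_ext'
  intro i
  rw [h i]; simp

lemma wr_irr (ρ : D →* Module.End (ZMod 3) W)
    (hnf : ∀ v : W →ₗ[ZMod 3] K, (∀ d, v ∘ₗ ρ d = v) → v = 0)
    (hirr : ∀ U : Submodule K (W →ₗ[ZMod 3] K), (∀ d, ∀ v ∈ U, v ∘ₗ ρ d ∈ U) → U = ⊥ ∨ U = ⊤)
    (U : Submodule K ((Fin 3 → W) →ₗ[ZMod 3] K)) (hU : ∀ x, ∀ v ∈ U, v ∘ₗ wrRep ρ x ∈ U) :
    U = ⊥ ∨ U = ⊤ := by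
  by_cases hbot : U = ⊥
  · exact Or.inl hbot
  right
  obtain ⟨v, hvU, hv0⟩ := (Submodule.ne_bot_iff U).mp hbot
  -- a nonzero component
  have hcomp : ∃ i, v ∘ₗ LinearMap.single (ZMod 3) (fun _ : Fin 3 => W) i ≠ 0 := by
    by_contra hcon
    push Not at hcon
    apply hv0
    apply LinearMap.pi_ext'
    intro i
    rw [hcon i]; simp
  obtain ⟨i, hi⟩ := hcomp
  -- pulled back submodules
  let P : Fin 3 → Submodule K (W →ₗ[ZMod 3] K) := fun j =>
    { carrier := {u | u ∘ₗ LinearMap.proj (R := ZMod 3) (φ := fun _ : Fin 3 => W) j ∈ U}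
      add_mem' := by
        intro a b ha hb
        have := U.add_mem ha hb
        rwa [← LinearMap.add_comp] at this
      zero_mem' := by
        show (0 : W →ₗ[ZMod 3] K) ∘ₗ _ ∈ U
        rw [LinearMap.zero_comp]; exact U.zero_mem
      smul_mem' := by
        intro c a ha
        have := U.smul_mem c ha
        rwa [← LinearMap.smul_comp] at this }
  have hP : ∀ j u, u ∈ P j ↔ u ∘ₗ LinearMap.proj (R := ZMod 3) (φ := fun _ : Fin 3 => W) j ∈ U :=
    fun j u => Iff.rfl
  have hPD : ∀ j d, ∀ u ∈ P j, u ∘ₗ ρ d ∈ P j := by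
    intro j d u hu
    rw [hP] at hu ⊢
    have := hU (SemidirectProduct.inl (fun _ => d)) _ hu
    have e : (u ∘ₗ ρ d) ∘ₗ LinearMap.proj (R := ZMod 3) (φ := fun _ : Fin 3 => W) j
        = (u ∘ₗ LinearMap.proj j) ∘ₗ (wrRep ρ) (SemidirectProduct.inl fun x => d) := by
      apply LinearMap.ext
      intro w
      rfl
    rw [e]
    exact this
  have hPi : P i ≠ ⊥ := by
    intro hPb
    apply hi
    apply hnf
    intro d
    rw [← sub_eq_zero, ← Submodule.mem_bot K, ← hPb, hP]
    have h1 := U.sub_mem (hU (SemidirectProduct.inl (Pi.mulSingle i d)) v hvU) hvU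
    convert h1 using 1
    apply LinearMap.pi_ext'
    intro j
    ext w
    simp only [LinearMap.comp_apply, LinearMap.sub_apply, LinearMap.single_apply,
      LinearMap.proj_apply]
    by_cases hj : j = i
    · subst hj
      rw [Pi.single_eq_same]
      congr 2
      ext k
      rw [wrRep_inl_apply]
      by_cases hk : k = j
      · subst hk; simp
      · simp [Pi.single_eq_of_ne hk]
    · rw [Pi.single_eq_of_ne (Ne.symm hj), map_zero, Pi.single_zero, map_zero, sub_zero, eq_comm,
        sub_eq_zero]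
      congr 1
      ext k
      rw [wrRep_inl_apply]
      by_cases hk : k = j
      · subst hk; simp [Pi.mulSingle_eq_of_ne hj]
      · simp [Pi.single_eq_of_ne hk]
  have hPtop : P i = ⊤ := (hirr (P i) (hPD i)).resolve_left hPi
  have hPall : ∀ j, P j = ⊤ := by
    intro j
    rw [Submodule.eq_top_iff']
    intro u
    rw [hP]
    have hu : u ∈ P i := by rw [hPtop]; exact Submodule.mem_top
    rw [hP] at hu
    have := hU (SemidirectProduct.inr (Equiv.swap i j)) _ hu
    convert this using 1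
    apply LinearMap.ext
    intro w
    simp only [LinearMap.comp_apply, LinearMap.proj_apply]
    rw [wrRep_inr_apply, Equiv.swap_inv, Equiv.swap_apply_left]
  rw [Submodule.eq_top_iff']
  intro v'
  have hsum : v' = ∑ j, (v' ∘ₗ LinearMap.single (ZMod 3) (fun _ : Fin 3 => W) j) ∘ₗ
      LinearMap.proj (R := ZMod 3) (φ := fun _ : Fin 3 => W) j := by
    apply LinearMap.ext
    intro w
    rw [LinearMap.sum_apply]
    simp only [LinearMap.comp_apply, LinearMap.proj_apply]
    rw [← map_sum]
    congr 1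
    ext j
    simp [Finset.sum_apply]
  rw [hsum]
  apply U.sum_mem
  intro j _
  rw [← hP, hPall j]
  exact Submodule.mem_top

end rep

/-- The iterated wreath products and their modules. -/
theorem exists_DW (k : ℕ) : ∃ (D : Type) (_ : Group D) (_ : Finite D) (W : Type)
    (_ : AddCommGroup W) (_ : Module (ZMod 3) W) (_ : Finite W)
    (ρ : D →* Module.End (ZMod 3) W), Group.IsSolvable D ∧ Module.finrank (ZMod 3) W = 3 ^ k ∧
      (∀ d, ρ d = 1 → d = 1) ∧ derivedSeries D (2 * k) ≠ ⊥ ∧
      (∀ (K : Type) [Field K] [Algebra (ZMod 3) K],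
        (∀ v : W →ₗ[ZMod 3] K, (∀ d, v ∘ₗ ρ d = v) → v = 0) ∧
        (∀ U : Submodule K (W →ₗ[ZMod 3] K), (∀ d, ∀ v ∈ U, v ∘ₗ ρ d ∈ U) → U = ⊥ ∨ U = ⊤)) := by
  induction k with
  | zero =>
    refine ⟨(ZMod 3)ˣ, inferInstance, inferInstance, ZMod 3, inferInstance, inferInstance,
      inferInstance, ((algebraMap (ZMod 3) (Module.End (ZMod 3) (ZMod 3))).toMonoidHom.comp
        (Units.coeHom (ZMod 3))), inferInstance, by simp, ?_, ?_, ?_⟩
    · intro d hd
      have := congrArg (fun l : Module.End (ZMod 3) (ZMod 3) => l 1) hd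
      apply Units.ext
      simpa [Module.algebraMap_end_apply] using this
    · intro h
      have h1 : (-1 : (ZMod 3)ˣ) ∈ (⊥ : Subgroup (ZMod 3)ˣ) := by rw [← h]; exact Subgroup.mem_top _
      rw [Subgroup.mem_bot] at h1
      exact absurd h1 (by decide)
    · intro K _ _
      constructor
      · intro v hv
        have h1 := congrArg (fun l : ZMod 3 →ₗ[ZMod 3] K => l 1) (hv (-1))
        have h2 : - v 1 = v 1 := by
          simpa [Module.algebraMap_end_apply] using h1
        have h3 : (3 : K) = 0 := by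
          have h3' : (3 : ZMod 3) = 0 := by decide
          have : (algebraMap (ZMod 3) K) 3 = 0 := by
            rw [h3', map_zero]
          rwa [map_ofNat] at this
        have h4 : v 1 = 0 := by linear_combination (v 1) * h3 + h2
        apply LinearMap.ext_ring
        rw [h4]; simp
      · intro U _
        by_cases hb : U = ⊥
        · exact Or.inl hb
        · right
          obtain ⟨v, hvU, hv0⟩ := (Submodule.ne_bot_iff U).mp hb
          have hv1 : v 1 ≠ 0 := by
            intro h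
            apply hv0
            apply LinearMap.ext_ring
            rw [h]; simp
          rw [Submodule.eq_top_iff']
          intro u
          have : u = (u 1 / v 1) • v := by
            apply LinearMap.ext_ring
            rw [LinearMap.smul_apply, smul_eq_mul, div_mul_cancel₀ _ hv1]
          rw [this]
          exact U.smul_mem _ hvU
  | succ k ih =>
    obtain ⟨D, gD, fD, W, aW, mW, fW, ρ, hs, hr, hf, hd, hK⟩ := ih
    have hu : ∃ u : W, u ≠ 0 := by
      by_contra hcon
      push Not at hcon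
      have : Subsingleton W := ⟨fun a b => by rw [hcon a, hcon b]⟩
      rw [Module.finrank_zero_of_subsingleton] at hr
      exact absurd hr.symm (by positivity)
    obtain ⟨u, hu⟩ := hu
    refine ⟨Wr D, inferInstance, finite_sdp _, Fin 3 → W, inferInstance, inferInstance,
      inferInstance, wrRep ρ, solvable_wr D, ?_, ?_, ?_, ?_⟩
    · rw [Module.finrank_pi_fintype]
      simp [hr, pow_succ, mul_comm]
    · exact fun d hd => wr_faithful ρ hf u hu d hd
    · exact wr_derived_ne_bot D (2 * k) hd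
    · intro K _ _
      exact ⟨wr_nofix ρ (hK K).1, wr_irr ρ (hK K).1 (hK K).2⟩

end Pool.Agent.H59
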