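import Mathlib
import Pool.Agent.H59.P1
import Pool.Agent.H59.P2
import Pool.Agent.H59.P3

set_option autoImplicit false

namespace Pool.Agent.H59

open scoped commutatorElement
open Matrix

section main

variable {D W : Type} [Group D] [AddCommGroup W] [Module (ZMod 3) W]
variable (K : Type) [Field K] [Algebra (ZMod 3) K]
variable (ρ : D →* Module.End (ZMod 3) W)

/-- action of D x K^* on V -/
noncomputable def thetaAct : (D × Kˣ) →* MulAut (Multiplicative (W →ₗ[ZMod 3] K)) :=
  mkAut (fun h v => Multiplicative.ofAdd ((h.2 : K) • (Multiplicative.toAdd v ∘ₗ ρ h.1⁻¹)))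
    (fun v => by
      apply Multiplicative.toAdd.injective
      apply LinearMap.ext
      intro w
      simp)
    (fun g h v => by
      apply Multiplicative.toAdd.injective
      apply LinearMap.ext
      intro w
      simp [mul_assoc])
    (fun g a b => by
      apply Multiplicative.toAdd.injective
      apply LinearMap.ext
      intro w
      simp [mul_add])

lemma thetaAct_apply (h : D × Kˣ) (v : Multiplicative (W →ₗ[ZMod 3] K)) :
    thetaAct K ρ h v = Multiplicative.ofAdd ((h.2 : K) • (Multiplicative.toAdd v ∘ₗ ρ h.1⁻¹)) := rfl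

/-- the primitive quotient -/
abbrev QQ := Multiplicative (W →ₗ[ZMod 3] K) ⋊[thetaAct K ρ] (D × Kˣ)

/-- action on E = W x K -/
noncomputable def eact (q : QQ K ρ) : (W × K) →+ (W × K) where
  toFun e := (ρ q.right.1 e.1, (q.right.2 : K) * e.2 + Multiplicative.toAdd q.left (ρ q.right.1 e.1))
  map_zero' := by simp
  map_add' a b := by
    ext
    · simp
    · simp; ring

lemma eact_apply (q : QQ K ρ) (e : W × K) : eact K ρ q e
  = (ρ q.right.1 e.1, (q.right.2 : K) * e.2 + Multiplicative.toAdd q.left (ρ q.right.1 e.1)) := rfl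

lemma eact_one : eact K ρ 1 = AddMonoidHom.id _ := by
  ext e <;> simp [eact_apply]

lemma eact_mul (p q : QQ K ρ) : eact K ρ (p * q) = (eact K ρ p).comp (eact K ρ q) := by
  apply AddMonoidHom.ext
  intro e
  rw [AddMonoidHom.comp_apply]
  rw [eact_apply, eact_apply, eact_apply]
  ext
  · simp
  · have h : ρ p.right.1⁻¹ (ρ p.right.1 (ρ q.right.1 e.1)) = ρ q.right.1 e.1 := by
      rw [← Module.End.mul_apply, ← map_mul, inv_mul_cancel, map_one]; rfl
    simp only [SemidirectProduct.mul_right, SemidirectProduct.mul_left, Prod.snd_mul, Prod.fst_mul,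
      Units.val_mul, map_mul, Module.End.mul_apply, thetaAct_apply, toAdd_mul, toAdd_ofAdd,
      LinearMap.add_apply, LinearMap.smul_apply, LinearMap.comp_apply, smul_eq_mul]
    rw [h]
    ring

variable (E : Type) [AddCommGroup E]

/-- augmentation ideal -/
noncomputable def aug : Ideal (GA E) := RingHom.ker (gmap (0 : E →+ PUnit.{1}))

variable {E} in
lemma aug_le_comap {E' : Type} [AddCommGroup E'] (f : E →+ E') :
    aug E ≤ (aug E').comap (gmap f) := by
  intro x hx
  rw [Ideal.mem_comap, aug, RingHom.mem_ker]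
  rw [aug, RingHom.mem_ker] at hx
  rw [← hx, ← RingHom.comp_apply]
  congr 1
  rw [gmap, gmap, gmap, ← AddMonoidAlgebra.mapDomainRingHom_comp]
  rfl

lemma gmap_comp_apply {E E' E'' : Type} [AddCommGroup E] [AddCommGroup E'] [AddCommGroup E'']
    (f : E →+ E') (g : E' →+ E'') : gmap (g.comp f) = (gmap g).comp (gmap f) := by
  rw [gmap, gmap, gmap, ← AddMonoidAlgebra.mapDomainRingHom_comp]

lemma gmap_id : gmap (AddMonoidHom.id E) = RingHom.id (GA E) := by
  rw [gmap, AddMonoidAlgebra.mapDomainRingHom_id]

/-- the normal p-subgroup N -/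
abbrev NN : Type := ↥(Cong (aug E))

/-- action of Q on N -/
noncomputable def phiAct : QQ K ρ →* MulAut (NN (W × K)) :=
  mkAut (fun q n => ⟨Matrix.GeneralLinearGroup.map (gmap (eact K ρ q)) n.1,
      Cong_map _ (aug_le_comap _) n.2⟩)
    (fun n => by
      apply Subtype.ext
      simp only [eact_one, gmap_id]
      rw [Matrix.GeneralLinearGroup.map_id]; rfl)
    (fun g h n => by
      apply Subtype.ext
      simp only [eact_mul, gmap_comp_apply]
      rw [Matrix.GeneralLinearGroup.map_comp]; rfl)
    (fun g a b => by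
      apply Subtype.ext
      simp)

lemma phiAct_coe (q : QQ K ρ) (n : NN (W × K)) :
    (phiAct K ρ q n : GL (Fin 3) (GA (W × K)))
      = Matrix.GeneralLinearGroup.map (gmap (eact K ρ q)) n.1 := rfl

/-- the big group -/
abbrev GG := (NN (W × K)) ⋊[phiAct K ρ] QQ K ρ

/-- the complement H of V in Q -/
noncomputable def HH : Subgroup (QQ K ρ) := (SemidirectProduct.inr (φ := thetaAct K ρ)).range

lemma mem_HH (q : QQ K ρ) : q ∈ HH K ρ ↔ q.left = 1 := by
  constructor
  · rintro ⟨h, rfl⟩
    rfl
  · intro h
    exact ⟨q.right, SemidirectProduct.ext h.symm rfl⟩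

/-- the maximal subgroup -/
noncomputable def MM : Subgroup (GG K ρ) := (HH K ρ).comap SemidirectProduct.rightHom

lemma HH_coatom (hne : ∃ w : W, w ≠ 0)
    (hirr : ∀ U : Submodule K (W →ₗ[ZMod 3] K), (∀ d, ∀ v ∈ U, v ∘ₗ ρ d ∈ U) → U = ⊥ ∨ U = ⊤) :
    IsCoatom (HH K ρ) := by
  constructor
  · intro htop
    obtain ⟨w, hw⟩ := hne
    obtain ⟨f, hf⟩ : ∃ f : Module.Dual (ZMod 3) W, f w ≠ 0 := by
      by_contra hcon
      push Not at hcon
      exact hw ((Module.forall_dual_apply_eq_zero_iff (ZMod 3) w).mp hcon)
    have hmem : (SemidirectProduct.inl (Multiplicative.ofAdd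
        ((Algebra.linearMap (ZMod 3) K) ∘ₗ f)) : QQ K ρ) ∈ HH K ρ := by
      rw [htop]; exact Subgroup.mem_top _
    rw [mem_HH] at hmem
    have h1 : (Algebra.linearMap (ZMod 3) K) ∘ₗ f = 0 := hmem
    have h2 := congrArg (fun l => l w) h1
    simp only [LinearMap.comp_apply, Algebra.linearMap_apply, LinearMap.zero_apply] at h2
    exact hf ((map_eq_zero _).mp h2)
  · intro L hL
    obtain ⟨x, hxL, hxH⟩ := SetLike.exists_of_lt hL
    have hHL : ∀ h : D × Kˣ, (SemidirectProduct.inr h : QQ K ρ) ∈ L := fun h => hL.le ⟨h, rfl⟩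
    -- the K-submodule of translations in L
    have hconj : ∀ (h : D × Kˣ) (v : Multiplicative (W →ₗ[ZMod 3] K)),
        (SemidirectProduct.inl v : QQ K ρ) ∈ L →
        (SemidirectProduct.inl (thetaAct K ρ h v) : QQ K ρ) ∈ L := by
      intro h v hv
      rw [SemidirectProduct.inl_aut]
      exact L.mul_mem (L.mul_mem (hHL _) hv) (hHL _)
    let U : Submodule K (W →ₗ[ZMod 3] K) :=
      { carrier := {v | (SemidirectProduct.inl (Multiplicative.ofAdd v) : QQ K ρ) ∈ L}
        add_mem' := by
          intro a b ha hb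
          have := L.mul_mem ha hb
          rwa [← map_mul] at this
        zero_mem' := by
          show (SemidirectProduct.inl (Multiplicative.ofAdd 0) : QQ K ρ) ∈ L
          rw [ofAdd_zero, map_one]; exact L.one_mem
        smul_mem' := by
          intro c a ha
          by_cases hc : c = 0
          · subst hc
            rw [zero_smul]
            show (SemidirectProduct.inl (Multiplicative.ofAdd 0) : QQ K ρ) ∈ L
            rw [ofAdd_zero, map_one]; exact L.one_mem
          · have := hconj (1, Units.mk0 c hc) _ ha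
            rw [thetaAct_apply] at this
            have e : (((1, Units.mk0 c hc) : D × Kˣ).2 : K) • (Multiplicative.toAdd
                (Multiplicative.ofAdd a) ∘ₗ ρ ((1, Units.mk0 c hc) : D × Kˣ).1⁻¹) = c • a := by
              apply LinearMap.ext
              intro w
              simp
            rw [e] at this
            exact this }
    have hU : ∀ v, v ∈ U ↔ (SemidirectProduct.inl (Multiplicative.ofAdd v) : QQ K ρ) ∈ L :=
      fun v => Iff.rfl
    have hUD : ∀ d, ∀ v ∈ U, v ∘ₗ ρ d ∈ U := by
      intro d v hv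
      rw [hU] at hv ⊢
      have := hconj (d⁻¹, 1) _ hv
      rw [thetaAct_apply] at this
      have e : (((d⁻¹, 1) : D × Kˣ).2 : K) • (Multiplicative.toAdd
          (Multiplicative.ofAdd v) ∘ₗ ρ ((d⁻¹, 1) : D × Kˣ).1⁻¹) = v ∘ₗ ρ d := by
        apply LinearMap.ext
        intro w
        simp
      rw [e] at this
      exact this
    have hUne : U ≠ ⊥ := by
      intro hb
      apply hxH
      rw [mem_HH]
      have h1 : Multiplicative.toAdd x.left ∈ U := by
        rw [hU]
        have := L.mul_mem hxL (L.inv_mem (hHL x.right))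
        convert this using 1
        apply SemidirectProduct.ext
        · simp
        · simp
      rw [hb, Submodule.mem_bot] at h1
      exact h1
    have hUtop : U = ⊤ := (hirr U hUD).resolve_left hUne
    rw [Subgroup.eq_top_iff']
    intro q
    rw [← SemidirectProduct.inl_left_mul_inr_right q]
    refine L.mul_mem ?_ (hHL _)
    have : Multiplicative.toAdd q.left ∈ U := by rw [hUtop]; exact Submodule.mem_top
    exact this

lemma MM_coatom (hne : ∃ w : W, w ≠ 0)
    (hirr : ∀ U : Submodule K (W →ₗ[ZMod 3] K), (∀ d, ∀ v ∈ U, v ∘ₗ ρ d ∈ U) → U = ⊥ ∨ U = ⊤) :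
    IsCoatom (MM K ρ) :=
  Subgroup.isCoatom_comap_of_surjective SemidirectProduct.rightHom_surjective (HH_coatom K ρ hne hirr)

/-- V is contained in the t-th derived subgroup of Q -/
lemma V_le_derived (hf : ∀ d, ρ d = 1 → d = 1)
    (hirr : ∀ U : Submodule K (W →ₗ[ZMod 3] K), (∀ d, ∀ v ∈ U, v ∘ₗ ρ d ∈ U) → U = ⊥ ∨ U = ⊤)
    (t : ℕ) (ht : ∀ j < t, derivedSeries D j ≠ ⊥) :
    ∀ j ≤ t, ∀ v : Multiplicative (W →ₗ[ZMod 3] K),
      (SemidirectProduct.inl v : QQ K ρ) ∈ derivedSeries (QQ K ρ) j := by
  intro j
  induction j with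
  | zero => intro _ v; exact Subgroup.mem_top _
  | succ j ih =>
    intro hj v
    have ih' := ih (by omega)
    set L := derivedSeries (QQ K ρ) (j + 1) with hLdef
    have hLn : L.Normal := derivedSeries_normal _ _
    have hconj : ∀ (h : D × Kˣ) (v : Multiplicative (W →ₗ[ZMod 3] K)),
        (SemidirectProduct.inl v : QQ K ρ) ∈ L →
        (SemidirectProduct.inl (thetaAct K ρ h v) : QQ K ρ) ∈ L := by
      intro h v hv
      rw [SemidirectProduct.inl_aut, map_inv]
      exact hLn.conj_mem _ hv _
    let U : Submodule K (W →ₗ[ZMod 3] K) :=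
      { carrier := {v | (SemidirectProduct.inl (Multiplicative.ofAdd v) : QQ K ρ) ∈ L}
        add_mem' := by
          intro a b ha hb
          have := L.mul_mem ha hb
          rwa [← map_mul] at this
        zero_mem' := by
          show (SemidirectProduct.inl (Multiplicative.ofAdd 0) : QQ K ρ) ∈ L
          rw [ofAdd_zero, map_one]; exact L.one_mem
        smul_mem' := by
          intro c a ha
          by_cases hc : c = 0
          · subst hc
            rw [zero_smul]
            show (SemidirectProduct.inl (Multiplicative.ofAdd 0) : QQ K ρ) ∈ L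
            rw [ofAdd_zero, map_one]; exact L.one_mem
          · have := hconj (1, Units.mk0 c hc) _ ha
            rw [thetaAct_apply] at this
            have e : (((1, Units.mk0 c hc) : D × Kˣ).2 : K) • (Multiplicative.toAdd
                (Multiplicative.ofAdd a) ∘ₗ ρ ((1, Units.mk0 c hc) : D × Kˣ).1⁻¹) = c • a := by
              apply LinearMap.ext
              intro w
              simp
            rw [e] at this
            exact this }
    have hU : ∀ v, v ∈ U ↔ (SemidirectProduct.inl (Multiplicative.ofAdd v) : QQ K ρ) ∈ L :=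
      fun v => Iff.rfl
    have hUD : ∀ d, ∀ v ∈ U, v ∘ₗ ρ d ∈ U := by
      intro d v hv
      rw [hU] at hv ⊢
      have := hconj (d⁻¹, 1) _ hv
      rw [thetaAct_apply] at this
      have e : (((d⁻¹, 1) : D × Kˣ).2 : K) • (Multiplicative.toAdd
          (Multiplicative.ofAdd v) ∘ₗ ρ ((d⁻¹, 1) : D × Kˣ).1⁻¹) = v ∘ₗ ρ d := by
        apply LinearMap.ext
        intro w
        simp
      rw [e] at this
      exact this
    have hUne : U ≠ ⊥ := by
      intro hb
      obtain ⟨d, hd, hd1⟩ : ∃ d ∈ derivedSeries D j, d ≠ 1 := by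
        by_contra hcon
        push Not at hcon
        apply ht j (by omega)
        rw [eq_bot_iff]
        intro x hx
        exact Subgroup.mem_bot.mpr (hcon x hx)
      have hρd : ρ d⁻¹ ≠ 1 := fun h => hd1 (inv_eq_one.mp (hf _ h))
      obtain ⟨w, hw⟩ : ∃ w, ρ d⁻¹ w - w ≠ 0 := by
        by_contra hcon
        push Not at hcon
        apply hρd
        apply LinearMap.ext
        intro w
        exact sub_eq_zero.mp (hcon w)
      obtain ⟨f, hf'⟩ : ∃ f : Module.Dual (ZMod 3) W, f (ρ d⁻¹ w - w) ≠ 0 := by
        by_contra hcon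
        push Not at hcon
        exact hw ((Module.forall_dual_apply_eq_zero_iff (ZMod 3) _).mp hcon)
      set v0 : W →ₗ[ZMod 3] K := (Algebra.linearMap (ZMod 3) K) ∘ₗ f with hv0
      have hinr : (SemidirectProduct.inr (d, 1) : QQ K ρ) ∈ derivedSeries (QQ K ρ) j := by
        have := map_derivedSeries_le_derivedSeries ((SemidirectProduct.inr (φ := thetaAct K ρ)).comp
          (MonoidHom.inl D Kˣ)) j (Subgroup.mem_map_of_mem _ hd)
        exact this
      have hcomm : (SemidirectProduct.inl (Multiplicative.ofAdd v0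
          * (thetaAct K ρ (d, 1) (Multiplicative.ofAdd v0))⁻¹) : QQ K ρ) ∈ L := by
        rw [← inl_comm_inr]
        exact Subgroup.commutator_mem_commutator (ih' _) hinr
      have hmem : v0 - v0 ∘ₗ ρ d⁻¹ ∈ U := by
        rw [hU]
        convert hcomm using 2
        apply Multiplicative.toAdd.injective
        apply LinearMap.ext
        intro w
        simp [thetaAct_apply, sub_eq_add_neg]
      rw [hb, Submodule.mem_bot] at hmem
      have := congrArg (fun l => l w) hmem
      simp only [LinearMap.sub_apply, LinearMap.comp_apply, LinearMap.zero_apply, hv0,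
        Algebra.linearMap_apply] at this
      rw [← map_sub, ← map_sub, map_eq_zero] at this
      apply hf'
      rw [← neg_sub, map_neg, this, neg_zero]
    have hUtop : U = ⊤ := (hirr U hUD).resolve_left hUne
    have : Multiplicative.toAdd v ∈ U := by rw [hUtop]; exact Submodule.mem_top
    exact this

end main

end Pool.Agent.H59
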