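import Mathlib
import Pool.Agent.H59.P1
import Pool.Agent.H59.P2
import Pool.Agent.H59.P3
import Pool.Agent.H59.P4

set_option autoImplicit false

namespace Pool.Agent.H59

open scoped commutatorElement
open Matrix

/-- ZMod 3 spanning families generate additively -/
lemma closure_range_of_span {E : Type} [AddCommGroup E] [Module (ZMod 3) E] {n : ℕ} (b : Fin n → E)
    (hb : Submodule.span (ZMod 3) (Set.range b) = ⊤) (x : E) :
    x ∈ AddSubgroup.closure (Set.range b) := by
  have h1 : Submodule.span (ZMod 3) (Set.range b)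
      ≤ AddSubgroup.toZModSubmodule 3 (AddSubgroup.closure (Set.range b)) := by
    rw [Submodule.span_le]
    intro y hy
    exact AddSubgroup.subset_closure hy
  have h2 : x ∈ Submodule.span (ZMod 3) (Set.range b) := by rw [hb]; exact Submodule.mem_top
  exact h1 h2

lemma three_nsmul_zero {E : Type} [AddCommGroup E] [Module (ZMod 3) E] (x : E) : (3 : ℕ) • x = 0 := by
  have h3 : ((3 : ℕ) : ZMod 3) = 0 := by decide
  rw [← Nat.cast_smul_eq_nsmul (ZMod 3), h3, zero_smul]

/-- nilpotency of the augmentation ideal -/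
lemma aug_pow {E : Type} [AddCommGroup E] [Module (ZMod 3) E] [Module.Finite (ZMod 3) E] :
    aug E ^ (3 * Module.finrank (ZMod 3) E + 1) = ⊥ := by
  set b := Module.finBasis (ZMod 3) E
  exact ker_gmap_pow _ b (fun i => three_nsmul_zero _)
    (fun k _ => closure_range_of_span b b.span_eq k)

lemma ker_snd_pow {W K : Type} [AddCommGroup W] [Module (ZMod 3) W] [Module.Finite (ZMod 3) W]
    [AddCommGroup K] :
    RingHom.ker (gmap (AddMonoidHom.snd W K)) ^ (3 * Module.finrank (ZMod 3) W + 1) = ⊥ := by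
  set b := Module.finBasis (ZMod 3) W
  refine ker_gmap_pow _ (fun i => ((b i, 0) : W × K)) (fun i => ?_) (fun k hk => ?_)
  · ext
    · exact three_nsmul_zero _
    · simp
  · obtain ⟨w, z⟩ := k
    have hz : z = 0 := hk
    subst hz
    have h1 := closure_range_of_span b b.span_eq w
    have h2 : ((AddMonoidHom.inl W K) w) ∈ AddSubgroup.map (AddMonoidHom.inl W K)
        (AddSubgroup.closure (Set.range b)) := AddSubgroup.mem_map_of_mem _ h1
    rw [AddMonoidHom.map_closure, ← Set.range_comp] at h2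
    exact h2

lemma pow_bot_mono {R : Type*} [CommRing R] {I : Ideal R} {a b : ℕ} (h : I ^ a = ⊥) (hab : a ≤ b) :
    I ^ b = ⊥ := by
  rw [eq_bot_iff, ← h]
  exact Ideal.pow_le_pow_right hab

section

variable {D W : Type} [Group D] [AddCommGroup W] [Module (ZMod 3) W]
variable (K : Type) [Field K] [Algebra (ZMod 3) K]
variable (ρ : D →* Module.End (ZMod 3) W)

/-- elements of the augmentation ideal which occur in the derived series -/
def PP (w : W) : ℕ → GA (W × K) → Prop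
  | 0, x => ∃ z : K, x = gX (w, 0) * (1 - gX (0, z))
  | (i + 1), x => ∃ y y', PP w i y ∧ PP w i y' ∧ x = y * y'

lemma gX_sub_one_mem_aug {E : Type} [AddCommGroup E] (e : E) : gX e - 1 ∈ aug E := by
  rw [aug, RingHom.mem_ker, map_sub, gmap_gX, map_one (gmap (0 : E →+ PUnit.{1}))]
  have : (0 : E →+ PUnit.{1}) e = 0 := rfl
  rw [this, gX_zero, sub_self]

omit [Module (ZMod 3) W] [Algebra (ZMod 3) K] in
lemma PP_mem_aug (w : W) (i : ℕ) : ∀ x, PP K w i x → x ∈ aug (W × K) := by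
  induction i with
  | zero =>
    rintro x ⟨z, rfl⟩
    have := gX_sub_one_mem_aug ((0, z) : W × K)
    rw [← neg_sub]
    exact Ideal.mul_mem_left _ _ ((aug (W × K)).neg_mem this)
  | succ i ih =>
    rintro x ⟨y, y', hy, _, rfl⟩
    exact Ideal.mul_mem_right _ _ (ih y hy)

/-- elementary elements of G -/
noncomputable def el (a b : Fin 3) (h : a ≠ b) (x : GA (W × K)) (hx : x ∈ aug (W × K)) : GG K ρ :=
  SemidirectProduct.inl ⟨elem a b h x, elem_mem_Cong hx⟩

lemma el_base (w : W) (hw : w ≠ 0) (t : ℕ)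
    (hV : ∀ v : Multiplicative (W →ₗ[ZMod 3] K),
      (SemidirectProduct.inl v : QQ K ρ) ∈ derivedSeries (QQ K ρ) t)
    (a b : Fin 3) (h : a ≠ b) (z : K) (hx : gX ((w, 0) : W × K) * (1 - gX (0, z)) ∈ aug (W × K)) :
    el K ρ a b h (gX (w, 0) * (1 - gX (0, z))) hx ∈ derivedSeries (GG K ρ) t := by
  obtain ⟨f, hf⟩ : ∃ f : Module.Dual (ZMod 3) W, f w ≠ 0 := by
    by_contra hcon
    push Not at hcon
    exact hw ((Module.forall_dual_apply_eq_zero_iff (ZMod 3) w).mp hcon)
  set v : W →ₗ[ZMod 3] K := LinearMap.smulRight ((f w)⁻¹ • f) z with hv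
  have hvw : v w = z := by
    rw [hv, LinearMap.smulRight_apply, LinearMap.smul_apply, smul_eq_mul, inv_mul_cancel₀ hf, one_smul]
  set q : QQ K ρ := SemidirectProduct.inl (Multiplicative.ofAdd v) with hq
  have hqm : (SemidirectProduct.inr q : GG K ρ) ∈ derivedSeries (GG K ρ) t :=
    map_derivedSeries_le_derivedSeries (SemidirectProduct.inr (φ := phiAct K ρ)) t
      (Subgroup.mem_map_of_mem _ (hV _))
  have haug := gX_sub_one_mem_aug ((w, 0) : W × K)
  have hn : (derivedSeries (GG K ρ) t).Normal := derivedSeries_normal _ _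
  have hcomm : ⁅(el K ρ a b h (gX (w, 0) - 1) haug : GG K ρ), (SemidirectProduct.inr q : GG K ρ)⁆
      ∈ derivedSeries (GG K ρ) t :=
    Subgroup.commutator_le_right (⊤ : Subgroup (GG K ρ)) (derivedSeries (GG K ρ) t)
      (Subgroup.commutator_mem_commutator (Subgroup.mem_top _) hqm)
  rw [el, inl_comm_inr] at hcomm
  rw [el]
  convert hcomm using 2
  apply Subtype.ext
  have hmem : gX ((w, z) : W × K) - 1 ∈ aug (W × K) := gX_sub_one_mem_aug _
  have e1 : (phiAct K ρ q ⟨elem a b h (gX (w, 0) - 1), elem_mem_Cong haug⟩ : NN (W × K)).1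
      = elem a b h (gX (w, z) - 1) := by
    rw [phiAct_coe, map_elem, map_sub, gmap_gX, map_one]
    congr 3
    rw [eact_apply]
    ext
    · simp [hq]
    · simp [hq, hvw]
  show elem a b h (gX (w, 0) * (1 - gX (0, z))) = elem a b h (gX (w, 0) - 1) *
    ((phiAct K ρ q ⟨elem a b h (gX (w, 0) - 1), elem_mem_Cong haug⟩ : NN (W × K)).1)⁻¹
  rw [e1, elem_inv, elem_mul]
  congr 1
  have : gX ((w, z) : W × K) = gX (w, 0) * gX (0, z) := by
    rw [← gX_add]; simp
  rw [this]
  ring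

lemma el_comm (a b c : Fin 3) (hac : a ≠ c) (hcb : c ≠ b) (hab : a ≠ b) (x y : GA (W × K))
    (hx : x ∈ aug (W × K)) (hy : y ∈ aug (W × K)) (hxy : x * y ∈ aug (W × K)) :
    ⁅el K ρ a c hac x hx, el K ρ c b hcb y hy⁆ = el K ρ a b hab (x * y) hxy := by
  rw [el, el, el, ← map_commutatorElement]
  congr 1
  apply Subtype.ext
  exact elem_comm a b c hac hcb hab x y

lemma el_mem (w : W) (hw : w ≠ 0) (t : ℕ)
    (hV : ∀ v : Multiplicative (W →ₗ[ZMod 3] K),
      (SemidirectProduct.inl v : QQ K ρ) ∈ derivedSeries (QQ K ρ) t) (i : ℕ) :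
    ∀ (x : GA (W × K)), PP K w i x → ∀ (a b : Fin 3) (h : a ≠ b) (hx : x ∈ aug (W × K)),
      el K ρ a b h x hx ∈ derivedSeries (GG K ρ) (t + i) := by
  induction i with
  | zero =>
    rintro x ⟨z, rfl⟩ a b h hx
    exact el_base K ρ w hw t hV a b h z hx
  | succ i ih =>
    rintro x ⟨y, y', hy, hy', rfl⟩ a b h hx
    obtain ⟨c, hac, hcb⟩ : ∃ c : Fin 3, a ≠ c ∧ c ≠ b := by
      revert a b; decide
    rw [← el_comm K ρ a b c hac hcb h y y' (PP_mem_aug K w i y hy) (PP_mem_aug K w i y' hy') hx,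
      ← add_assoc, derivedSeries_succ]
    exact Subgroup.commutator_mem_commutator (ih y hy a c hac _) (ih y' hy' c b hcb _)

omit [Module (ZMod 3) W] [Algebra (ZMod 3) K] in
lemma PP_exists (w : W) {ι : Type} [DecidableEq ι] (z : ι → K) (i : ℕ) : ∀ s : Finset ι,
    s.card = 2 ^ i → ∃ e : W × K, PP K w i (gX e * ∏ j ∈ s, (1 - gX (0, z j))) := by
  induction i with
  | zero =>
    intro s hs
    rw [pow_zero, Finset.card_eq_one] at hs
    obtain ⟨a, rfl⟩ := hs
    exact ⟨(w, 0), z a, by rw [Finset.prod_singleton]⟩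
  | succ i ih =>
    intro s hs
    obtain ⟨s1, hs1, hc1⟩ := Finset.exists_subset_card_eq (s := s) (n := 2 ^ i)
      (by rw [hs, pow_succ]; omega)
    have hc2 : (s \ s1).card = 2 ^ i := by
      rw [Finset.card_sdiff_of_subset hs1, hs, hc1, pow_succ]; omega
    obtain ⟨e1, h1⟩ := ih s1 hc1
    obtain ⟨e2, h2⟩ := ih (s \ s1) hc2
    refine ⟨e1 + e2, _, _, h1, h2, ?_⟩
    rw [gX_add, ← Finset.prod_sdiff hs1]
    ring

lemma GG_derived_ne_bot (w : W) (hw : w ≠ 0) (t n : ℕ) [Module.Finite (ZMod 3) K]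
    (hK : Module.finrank (ZMod 3) K = 2 ^ n)
    (hV : ∀ v : Multiplicative (W →ₗ[ZMod 3] K),
      (SemidirectProduct.inl v : QQ K ρ) ∈ derivedSeries (QQ K ρ) t) :
    derivedSeries (GG K ρ) (t + n) ≠ ⊥ := by
  intro hbot
  set b := Module.finBasis (ZMod 3) K with hb
  obtain ⟨e, he⟩ := PP_exists K w b n Finset.univ (by rw [Finset.card_fin, hK])
  have hmem := PP_mem_aug K w n _ he
  have h01 : (0 : Fin 3) ≠ 1 := by decide
  have h := el_mem K ρ w hw t hV n _ he 0 1 h01 hmem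
  rw [hbot, Subgroup.mem_bot, el, ← map_one (SemidirectProduct.inl (φ := phiAct K ρ)),
    SemidirectProduct.inl_inj] at h
  have h1 : elem 0 1 h01 (gX e * ∏ j, (1 - gX (0, b j))) = 1 := congrArg Subtype.val h
  have h2 := elem_eq_one h1
  have hli : LinearIndependent (ZMod 3) (fun j => ((0, b j) : W × K)) := by
    have := b.linearIndependent.map' (LinearMap.inr (ZMod 3) W K) (by
      rw [LinearMap.ker_eq_bot]; exact LinearMap.inr_injective)
    exact this
  apply prod_one_sub_ne_zero _ hli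
  have h3 : gX (-e) * gX e = 1 := by rw [← gX_add, neg_add_cancel, gX_zero]
  calc ∏ i, (1 - gX ((0, b i) : W × K)) = (gX (-e) * gX e) * ∏ i, (1 - gX (0, b i)) := by
        rw [h3, one_mul]
    _ = gX (-e) * (gX e * ∏ i, (1 - gX (0, b i))) := by ring
    _ = 0 := by rw [h2, mul_zero]

/-! ### upper bound for the maximal subgroup -/

/-- D-component -/
noncomputable def dHom : ↥(MM K ρ) →* D :=
  (MonoidHom.fst D Kˣ).comp ((SemidirectProduct.rightHom (φ := thetaAct K ρ)).comp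
    ((SemidirectProduct.rightHom (φ := phiAct K ρ)).comp (MM K ρ).subtype))

/-- K-component -/
noncomputable def cHom : ↥(MM K ρ) →* Kˣ :=
  (MonoidHom.snd D Kˣ).comp ((SemidirectProduct.rightHom (φ := thetaAct K ρ)).comp
    ((SemidirectProduct.rightHom (φ := phiAct K ρ)).comp (MM K ρ).subtype))

lemma dHom_apply (x : ↥(MM K ρ)) : dHom K ρ x = x.1.right.right.1 := rfl
lemma cHom_apply (x : ↥(MM K ρ)) : cHom K ρ x = x.1.right.right.2 := rfl

lemma MM_left (x : ↥(MM K ρ)) : x.1.right.left = 1 := (mem_HH K ρ _).mp x.2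

/-- reduction mod W -/
noncomputable def mu (x : ↥(MM K ρ)) : GL (Fin 3) (GA K) :=
  Matrix.GeneralLinearGroup.map (gmap (AddMonoidHom.snd W K)) x.1.left.1

lemma snd_eact (x : ↥(MM K ρ)) (hc : cHom K ρ x = 1) :
    (AddMonoidHom.snd W K).comp (eact K ρ x.1.right) = AddMonoidHom.snd W K := by
  apply AddMonoidHom.ext
  intro e
  rw [AddMonoidHom.comp_apply, eact_apply, MM_left]
  rw [cHom_apply] at hc
  rw [hc]
  simp

lemma mu_mul (x y : ↥(MM K ρ)) (hc : cHom K ρ x = 1) : mu K ρ (x * y) = mu K ρ x * mu K ρ y := by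
  have h1 : (x * y).1.left.1 = x.1.left.1 *
      Matrix.GeneralLinearGroup.map (gmap (eact K ρ x.1.right)) y.1.left.1 := rfl
  rw [mu, mu, mu, h1, map_mul]
  congr 1
  rw [← Matrix.GeneralLinearGroup.map_comp_apply, ← Matrix.GeneralLinearGroup.map_comp,
    ← gmap_comp_apply, snd_eact K ρ x hc]

lemma mu_one : mu K ρ (1 : ↥(MM K ρ)) = 1 := by
  have h1 : (1 : ↥(MM K ρ)).1.left.1 = 1 := rfl
  rw [mu, h1, map_one]

lemma mu_inv (x : ↥(MM K ρ)) (hc : cHom K ρ x = 1) : mu K ρ x⁻¹ = (mu K ρ x)⁻¹ := by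
  rw [eq_inv_iff_mul_eq_one, ← mu_mul K ρ x⁻¹ x (by rw [map_inv, hc, inv_one]), inv_mul_cancel,
    mu_one]

/-- first filtration -/
noncomputable def S1 (i : ℕ) : Subgroup ↥(MM K ρ) where
  carrier := {x | cHom K ρ x = 1 ∧ mu K ρ x ∈ Cong (aug K ^ (2 ^ i))}
  one_mem' := by
    refine ⟨map_one _, ?_⟩
    rw [mu_one]; exact Subgroup.one_mem _
  mul_mem' := by
    rintro x y ⟨hx, hx'⟩ ⟨hy, hy'⟩
    refine ⟨by rw [map_mul, hx, hy, mul_one], ?_⟩
    rw [mu_mul K ρ x y hx]
    exact Subgroup.mul_mem _ hx' hy'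
  inv_mem' := by
    rintro x ⟨hx, hx'⟩
    refine ⟨by rw [map_inv, hx, inv_one], ?_⟩
    rw [mu_inv K ρ x hx]
    exact Subgroup.inv_mem _ hx'

lemma derived_le_S1 (i : ℕ) : derivedSeries ↥(MM K ρ) (1 + i) ≤ S1 K ρ i := by
  apply derivedSeries_le_of_filtration
  · intro x hx
    refine ⟨?_, ?_⟩
    · have h1 := map_derivedSeries_le_derivedSeries (cHom K ρ) 1 (Subgroup.mem_map_of_mem _ hx)
      have h2 : derivedSeries Kˣ 1 = ⊥ := by
        rw [derivedSeries_one, commutator_def, Subgroup.commutator_eq_bot_iff_le_centralizer]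
        intro a _
        rw [Subgroup.mem_centralizer_iff]
        intro b _
        exact mul_comm b a
      rw [h2, Subgroup.mem_bot] at h1
      exact h1
    · rw [pow_zero, pow_one]
      exact Cong_map _ (aug_le_comap _) x.1.left.2
  · rintro n x ⟨hx, hx'⟩ y ⟨hy, hy'⟩
    have hxi : cHom K ρ x⁻¹ = 1 := by rw [map_inv, hx, inv_one]
    refine ⟨?_, ?_⟩
    · rw [map_commutatorElement, hx, hy]; simp
    · have e : mu K ρ ⁅x, y⁆ = ⁅mu K ρ x, mu K ρ y⁆ := by
        rw [commutatorElement_def, commutatorElement_def,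
          mu_mul K ρ _ _ (by rw [map_mul, map_mul, hx, hy, hxi]; simp),
          mu_mul K ρ _ _ (by rw [map_mul, hx, hy]; simp), mu_mul K ρ _ _ hx, mu_inv K ρ x hx,
          mu_inv K ρ y hy]
      rw [e, pow_succ, pow_mul, pow_two]
      exact Cong_comm hx' hy'

/-- second filtration -/
noncomputable def S2 (i : ℕ) : Subgroup ↥(MM K ρ) where
  carrier := {x | x.1.right = 1 ∧
    x.1.left.1 ∈ Cong (RingHom.ker (gmap (AddMonoidHom.snd W K)) ^ (2 ^ i))}
  one_mem' := ⟨rfl, Subgroup.one_mem _⟩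
  mul_mem' := by
    rintro x y ⟨hx, hx'⟩ ⟨hy, hy'⟩
    refine ⟨?_, ?_⟩
    · show x.1.right * y.1.right = 1
      rw [hx, hy, mul_one]
    · have h1 : (x * y).1.left = x.1.left * phiAct K ρ x.1.right y.1.left := rfl
      rw [h1, hx, map_one]
      exact Subgroup.mul_mem _ hx' hy'
  inv_mem' := by
    rintro x ⟨hx, hx'⟩
    refine ⟨?_, ?_⟩
    · show x.1.right⁻¹ = 1
      rw [hx, inv_one]
    · have h1 : (x⁻¹).1.left = phiAct K ρ x.1.right⁻¹ x.1.left⁻¹ := rfl
      rw [h1, hx, inv_one, map_one]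
      exact Subgroup.inv_mem _ hx'

lemma S2_comm (n : ℕ) (x : ↥(MM K ρ)) (hx : x ∈ S2 K ρ n) (y : ↥(MM K ρ)) (hy : y ∈ S2 K ρ n) :
    ⁅x, y⁆ ∈ S2 K ρ (n + 1) := by
  obtain ⟨hx, hx'⟩ := hx
  obtain ⟨hy, hy'⟩ := hy
  have ex : x.1 = SemidirectProduct.inl x.1.left := SemidirectProduct.ext rfl hx
  have ey : y.1 = SemidirectProduct.inl y.1.left := SemidirectProduct.ext rfl hy
  have e : (⁅x, y⁆ : ↥(MM K ρ)).1 = SemidirectProduct.inl ⁅x.1.left, y.1.left⁆ := by
    rw [map_commutatorElement, ← ex, ← ey]; rfl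
  refine ⟨?_, ?_⟩
  · rw [e]; rfl
  · rw [e, SemidirectProduct.left_inl, pow_succ, pow_mul, pow_two]
    exact Cong_comm hx' hy'

/-- The upper bound for the derived length of M. -/
lemma MM_derived (t n m : ℕ) [Module.Finite (ZMod 3) K] [Module.Finite (ZMod 3) W]
    (ht : derivedSeries D t = ⊥) (hn : aug K ^ (2 ^ n) = ⊥)
    (hm : RingHom.ker (gmap (AddMonoidHom.snd W K)) ^ (2 ^ m) = ⊥) (hnt : 1 + n ≤ t) :
    derivedSeries ↥(MM K ρ) (t + m) = ⊥ := by
  have key : derivedSeries ↥(MM K ρ) (t + m) ≤ S2 K ρ m := by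
    apply derivedSeries_le_of_filtration _ _ _ (S2_comm K ρ)
    intro x hx
    have h1 : x ∈ S1 K ρ n := derived_le_S1 K ρ n (derivedSeries_antitone _ hnt hx)
    obtain ⟨hc, hmu⟩ := h1
    have hd := map_derivedSeries_le_derivedSeries (dHom K ρ) t (Subgroup.mem_map_of_mem _ hx)
    rw [ht, Subgroup.mem_bot] at hd
    refine ⟨?_, ?_⟩
    · exact SemidirectProduct.ext (MM_left K ρ x) (Prod.ext hd hc)
    · rw [pow_zero, pow_one]
      rw [hn] at hmu
      have h2 := Cong_bot hmu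
      intro i j
      rw [RingHom.mem_ker]
      have h3 : ((mu K ρ x : GL (Fin 3) (GA K)) : Matrix (Fin 3) (Fin 3) (GA K)) i j
        = gmap (AddMonoidHom.snd W K) ((x.1.left.1 : Matrix (Fin 3) (Fin 3) (GA (W × K))) i j) := rfl
      rw [h2, Units.val_one] at h3
      rw [Matrix.sub_apply, map_sub, ← h3, Matrix.one_apply, Matrix.one_apply]
      split_ifs <;> simp
  rw [eq_bot_iff]
  intro x hx
  obtain ⟨h1, h2⟩ := key hx
  rw [hm] at h2
  have h3 := Cong_bot h2
  rw [Subgroup.mem_bot]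
  apply Subtype.ext
  exact SemidirectProduct.ext (Subtype.ext h3) h1

lemma NN_solvable (E : Type) [AddCommGroup E] [Module (ZMod 3) E] [Module.Finite (ZMod 3) E] :
    Group.IsSolvable (NN E) := by
  refine ⟨⟨0 + (3 * Module.finrank (ZMod 3) E + 1), ?_⟩⟩
  have key := derivedSeries_le_of_filtration (G := NN E)
    (fun i => (Cong (aug E ^ (2 ^ i))).subgroupOf (Cong (aug E))) 0
    (by
      intro x _
      rw [Subgroup.mem_subgroupOf, pow_zero, pow_one]
      exact x.2)
    (by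
      intro n x hx y hy
      rw [Subgroup.mem_subgroupOf] at hx hy ⊢
      rw [pow_succ, pow_mul, pow_two]
      exact Cong_comm hx hy) (3 * Module.finrank (ZMod 3) E + 1)
  rw [eq_bot_iff]
  refine key.trans ?_
  intro x hx
  rw [Subgroup.mem_subgroupOf, pow_bot_mono aug_pow (Nat.lt_two_pow_self).le] at hx
  rw [Subgroup.mem_bot]
  exact Subtype.ext (Cong_bot hx)

end

end Pool.Agent.H59
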